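import Pool.Agent.Gab7_h87.Orient

/-!
# All ranks: disjoint chains of lengths three and three, three and two
-/

set_option autoImplicit false

namespace Pool.Agent.Gab14

open Pool.Agent.Gabow87
open Pool.Agent.Gab7_h87 (totV totX of_two refine_near)

section Comb

variable {α : Type*} [DecidableEq α]

theorem pick {S U : Finset α} (n : ℕ) (h : U.card + n ≤ S.card) :
    ∃ X ⊆ S, Disjoint X U ∧ X.card = n := by
  have h1 : n ≤ (S \ U).card := by
    have := Finset.le_card_sdiff U S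
    omega
  obtain ⟨X, hX, hc⟩ := Finset.exists_subset_card_eq h1
  refine ⟨X, hX.trans Finset.sdiff_subset, ?_, hc⟩
  exact Finset.disjoint_of_subset_left hX Finset.sdiff_disjoint

theorem card_union_meet {U X : Finset α} (h : ¬ Disjoint U X) :
    (U ∪ X).card + 1 ≤ U.card + X.card := by
  have h1 := Finset.card_union_add_card_inter U X
  have h2 : 0 < (U ∩ X).card := by
    rw [Finset.card_pos]
    rwa [Finset.disjoint_iff_inter_eq_empty, ← Finset.not_nonempty_iff_eq_empty, not_not] at h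
  omega

theorem card_union_le' {U X : Finset α} : (U ∪ X).card ≤ U.card + X.card :=
  Finset.card_union_le U X

/-- A set which meets `V` and is disjoint from `W` ... : one element in each of disjoint sets. -/
theorem card_meet {V A U : Finset α} (h : ¬ Disjoint V A) (hd : Disjoint A U) :
    (V ∩ U).card + 1 ≤ (V ∩ (U ∪ A)).card := by
  have h1 : 0 < (V ∩ A).card := by
    rw [Finset.card_pos]
    rwa [Finset.disjoint_iff_inter_eq_empty, ← Finset.not_nonempty_iff_eq_empty, not_not] at h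
  have h2 : (V ∩ (U ∪ A)).card = (V ∩ U).card + (V ∩ A).card := by
    rw [Finset.inter_union_distrib_left, Finset.card_union_of_disjoint]
    exact Finset.disjoint_of_subset_left Finset.inter_subset_right
      (Finset.disjoint_of_subset_right Finset.inter_subset_right hd.symm)
  omega

/-- two disjoint nodes of size three -/
theorem three_three {S T : Finset α} {R : Finset α → Finset α → Prop} (hS : 12 ≤ S.card)
    (hT : 12 ≤ T.card)
    (tV : ∀ V ⊆ T, V.card = 3 → ∃ X ⊆ S, X.card = 3 ∧ R X V)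
    (tX : ∀ X ⊆ S, X.card = 3 → ∃ V ⊆ T, V.card = 3 ∧ R X V) :
    ∃ X ⊆ S, ∃ X' ⊆ S, ∃ V ⊆ T, ∃ V' ⊆ T, Disjoint X X' ∧ Disjoint V V' ∧ R X V ∧ R X' V' := by
  by_contra hcon
  have key : ∀ X ⊆ S, ∀ X' ⊆ S, ∀ V ⊆ T, ∀ V' ⊆ T, R X V → R X' V' → Disjoint V V' →
      ¬ Disjoint X X' := fun X hX X' hX' V hV V' hV' h h' hd hd' =>
    hcon ⟨X, hX, X', hX', V, hV, V', hV', hd', hd, h, h'⟩
  obtain ⟨V1, hV1, -, c1⟩ := pick (S := T) (U := ∅) 3 (by simp; omega)
  obtain ⟨V2, hV2, d2, c2⟩ := pick (S := T) (U := V1) 3 (by omega)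
  obtain ⟨V3, hV3, d3, c3⟩ := pick (S := T) (U := V1 ∪ V2) 3 (by
    have := Finset.card_union_le V1 V2; omega)
  obtain ⟨V4, hV4, d4, c4⟩ := pick (S := T) (U := V1 ∪ V2 ∪ V3) 3 (by
    have := Finset.card_union_le V1 V2; have := Finset.card_union_le (V1 ∪ V2) V3; omega)
  obtain ⟨X1, hX1, e1, r1⟩ := tV V1 hV1 c1
  obtain ⟨X2, hX2, e2, r2⟩ := tV V2 hV2 c2
  obtain ⟨X3, hX3, e3, r3⟩ := tV V3 hV3 c3
  obtain ⟨X4, hX4, e4, r4⟩ := tV V4 hV4 c4
  have d12 : Disjoint V1 V2 := d2.symm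
  have d13 : Disjoint V1 V3 := (Finset.disjoint_of_subset_right Finset.subset_union_left d3).symm
  have d14 : Disjoint V1 V4 := (Finset.disjoint_of_subset_right
    (Finset.subset_union_left.trans Finset.subset_union_left) d4).symm
  have m12 := key X1 hX1 X2 hX2 V1 hV1 V2 hV2 r1 r2 d12
  have m13 := key X1 hX1 X3 hX3 V1 hV1 V3 hV3 r1 r3 d13
  have m14 := key X1 hX1 X4 hX4 V1 hV1 V4 hV4 r1 r4 d14
  have u2 : (X1 ∪ X2).card ≤ 5 := by have := card_union_meet m12; omega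
  have u3 : (X1 ∪ X2 ∪ X3).card ≤ 7 := by
    have : ¬ Disjoint (X1 ∪ X2) X3 := fun h =>
      m13 (Finset.disjoint_of_subset_left Finset.subset_union_left h)
    have := card_union_meet this; omega
  have u4 : (X1 ∪ X2 ∪ X3 ∪ X4).card ≤ 9 := by
    have : ¬ Disjoint (X1 ∪ X2 ∪ X3) X4 := fun h =>
      m14 (Finset.disjoint_of_subset_left
        (Finset.subset_union_left.trans Finset.subset_union_left) h)
    have := card_union_meet this; omega
  obtain ⟨X5, hX5, d5, e5⟩ := pick (S := S) (U := X1 ∪ X2 ∪ X3 ∪ X4) 3 (by omega)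
  obtain ⟨V5, hV5, c5, r5⟩ := tX X5 hX5 e5
  have n1 : ¬ Disjoint V5 V1 := fun h => key X5 hX5 X1 hX1 V5 hV5 V1 hV1 r5 r1 h
    (Finset.disjoint_of_subset_right (Finset.subset_union_left.trans
      (Finset.subset_union_left.trans Finset.subset_union_left)) d5)
  have n2 : ¬ Disjoint V5 V2 := fun h => key X5 hX5 X2 hX2 V5 hV5 V2 hV2 r5 r2 h
    (Finset.disjoint_of_subset_right (Finset.subset_union_right.trans
      (Finset.subset_union_left.trans Finset.subset_union_left)) d5)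
  have n3 : ¬ Disjoint V5 V3 := fun h => key X5 hX5 X3 hX3 V5 hV5 V3 hV3 r5 r3 h
    (Finset.disjoint_of_subset_right
      (Finset.subset_union_right.trans Finset.subset_union_left) d5)
  have n4 : ¬ Disjoint V5 V4 := fun h => key X5 hX5 X4 hX4 V5 hV5 V4 hV4 r5 r4 h
    (Finset.disjoint_of_subset_right Finset.subset_union_right d5)
  have k1 := card_meet (U := ∅) n1 (Finset.disjoint_empty_right _)
  have k2 := card_meet (U := ∅ ∪ V1) n2 (by simpa using d2)
  have k3 := card_meet (U := ∅ ∪ V1 ∪ V2) n3 (by simpa using d3)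
  have k4 := card_meet (U := ∅ ∪ V1 ∪ V2 ∪ V3) n4 (by simpa using d4)
  have k5 : (V5 ∩ (∅ ∪ V1 ∪ V2 ∪ V3 ∪ V4)).card ≤ V5.card :=
    Finset.card_le_card Finset.inter_subset_left
  omega

/-- two disjoint nodes of sizes three and two, or two disjoint nodes of size three -/
theorem three_two {S T : Finset α} {R R' : Finset α → Finset α → Prop} (hS : 9 ≤ S.card)
    (hT : 9 ≤ T.card)
    (tV : ∀ V ⊆ T, V.card = 3 → ∃ X ⊆ S, X.card = 3 ∧ R X V)
    (tX : ∀ X ⊆ S, X.card = 2 → ∃ V ⊆ T, V.card = 2 ∧ R' X V)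
    (sub : ∀ X V, R X V → ∃ X' ⊆ X, ∃ V' ⊆ V, R' X' V') :
    ∃ X ⊆ S, ∃ X' ⊆ S, ∃ V ⊆ T, ∃ V' ⊆ T, Disjoint X X' ∧ Disjoint V V' ∧ R X V ∧ R' X' V' := by
  by_contra hcon
  have key : ∀ X ⊆ S, ∀ X' ⊆ S, ∀ V ⊆ T, ∀ V' ⊆ T, R X V → R' X' V' → Disjoint V V' →
      ¬ Disjoint X X' := fun X hX X' hX' V hV V' hV' h h' hd hd' =>
    hcon ⟨X, hX, X', hX', V, hV, V', hV', hd', hd, h, h'⟩
  have key3 : ∀ X ⊆ S, ∀ X' ⊆ S, ∀ V ⊆ T, ∀ V' ⊆ T, R X V → R X' V' → Disjoint V V' →
      ¬ Disjoint X X' := by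
    intro X hX X' hX' V hV V' hV' h h' hd hd'
    obtain ⟨Y, hY, W, hW, hr⟩ := sub X' V' h'
    exact key X hX Y (hY.trans hX') V hV W (hW.trans hV') h hr
      (Finset.disjoint_of_subset_right hW hd) (Finset.disjoint_of_subset_right hY hd')
  obtain ⟨V1, hV1, -, c1⟩ := pick (S := T) (U := ∅) 3 (by simp; omega)
  obtain ⟨V2, hV2, d2, c2⟩ := pick (S := T) (U := V1) 3 (by omega)
  obtain ⟨V3, hV3, d3, c3⟩ := pick (S := T) (U := V1 ∪ V2) 3 (by
    have := Finset.card_union_le V1 V2; omega)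
  obtain ⟨X1, hX1, e1, r1⟩ := tV V1 hV1 c1
  obtain ⟨X2, hX2, e2, r2⟩ := tV V2 hV2 c2
  obtain ⟨X3, hX3, e3, r3⟩ := tV V3 hV3 c3
  have d12 : Disjoint V1 V2 := d2.symm
  have d13 : Disjoint V1 V3 := (Finset.disjoint_of_subset_right Finset.subset_union_left d3).symm
  have m12 := key3 X1 hX1 X2 hX2 V1 hV1 V2 hV2 r1 r2 d12
  have m13 := key3 X1 hX1 X3 hX3 V1 hV1 V3 hV3 r1 r3 d13
  have u2 : (X1 ∪ X2).card ≤ 5 := by have := card_union_meet m12; omega
  have u3 : (X1 ∪ X2 ∪ X3).card ≤ 7 := by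
    have : ¬ Disjoint (X1 ∪ X2) X3 := fun h =>
      m13 (Finset.disjoint_of_subset_left Finset.subset_union_left h)
    have := card_union_meet this; omega
  obtain ⟨X5, hX5, d5, e5⟩ := pick (S := S) (U := X1 ∪ X2 ∪ X3) 2 (by omega)
  obtain ⟨V5, hV5, c5, r5⟩ := tX X5 hX5 e5
  have n1 : ¬ Disjoint V5 V1 := fun h => key X1 hX1 X5 hX5 V1 hV1 V5 hV5 r1 r5 h.symm
    (Finset.disjoint_of_subset_right (Finset.subset_union_left.trans
      Finset.subset_union_left) d5).symm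
  have n2 : ¬ Disjoint V5 V2 := fun h => key X2 hX2 X5 hX5 V2 hV2 V5 hV5 r2 r5 h.symm
    (Finset.disjoint_of_subset_right (Finset.subset_union_right.trans
      Finset.subset_union_left) d5).symm
  have n3 : ¬ Disjoint V5 V3 := fun h => key X3 hX3 X5 hX5 V3 hV3 V5 hV5 r3 r5 h.symm
    (Finset.disjoint_of_subset_right Finset.subset_union_right d5).symm
  have k1 := card_meet (U := ∅) n1 (Finset.disjoint_empty_right _)
  have k2 := card_meet (U := ∅ ∪ V1) n2 (by simpa using d2)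
  have k3 := card_meet (U := ∅ ∪ V1 ∪ V2) n3 (by simpa using d3)
  have k5 : (V5 ∩ (∅ ∪ V1 ∪ V2 ∪ V3)).card ≤ V5.card :=
    Finset.card_le_card Finset.inter_subset_left
  omega

end Comb

theorem gch_sub {α : Type*} [DecidableEq α] {P : Finset α → Prop} {B B' : Finset α} (n : ℕ)
    (X V : Finset α) (h : GCh P B B' (n + 1) X V) :
    ∃ X' ⊆ X, ∃ V' ⊆ V, GCh P B B' n X' V' := by
  obtain ⟨-, x, -, v, -, h2⟩ := h
  exact ⟨_, Finset.erase_subset _ _, _, Finset.erase_subset _ _, h2⟩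

/-- **All ranks at least twelve.** -/
theorem twelve {α : Type*} (M : Matroid α) {r : ℕ} (hr : 12 ≤ r) (b b' : Fin r → α)
    (hb : Function.Injective b) (hb' : Function.Injective b')
    (hB : M.IsBase (Set.range b)) (hB' : M.IsBase (Set.range b')) :
    ∃ σ σ' : Equiv.Perm (Fin r), ∀ i : Fin (r + r),
      (i.val ≤ r ∨ i.val % r ≤ 3 ∨ r ≤ i.val % r + 3) →
      M.IsBase (block (b ∘ σ) (b' ∘ σ') i) := by
  have hA := base_B₀ (b' := b') hb hB
  have hA' := base_B₁ (b := b) hb' hB'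
  have hP := symExch_BP M (Sum.elim b b')
  have c0 : (B₀ r).card = r := by simp [B₀]
  have c1 : (B₁ r).card = r := by simp [B₁]
  obtain ⟨X, hX, X', hX', V, hV, V', hV', dX, dV, h, h'⟩ := three_three (S := B₀ r) (T := B₁ r)
    (R := fun X V => GCh (BP M (Sum.elim b b')) (B₀ r) (B₁ r) 3 X V) (by omega) (by omega)
    (fun V hV hc => by
      obtain ⟨X, hX, m, hm⟩ := totV hP hA hA' (disj_B r) V hV (by omega)
      obtain ⟨e1, e2⟩ := GCh.card _ _ _ hm
      have : m = 3 := by omega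
      subst this
      exact ⟨X, hX, e1, hm⟩)
    (fun X hX hc => by
      obtain ⟨V, hV, m, hm⟩ := totX hP hA hA' (disj_B r) X hX (by omega)
      obtain ⟨e1, e2⟩ := GCh.card _ _ _ hm
      have : m = 3 := by omega
      subst this
      exact ⟨V, hV, e2, hm⟩)
  exact refine_near M b b' hb hB hB' (fun n => n ≤ 3 ∨ r ≤ n + 3)
    (of_two (k := 3) (l := 3) (by omega) hb hb' hB hB' hX hX' hV hV' dX dV h h')

/-- **All ranks at least nine.** -/
theorem nine {α : Type*} (M : Matroid α) {r : ℕ} (hr : 9 ≤ r) (b b' : Fin r → α)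
    (hb : Function.Injective b) (hb' : Function.Injective b')
    (hB : M.IsBase (Set.range b)) (hB' : M.IsBase (Set.range b')) :
    ∃ σ σ' : Equiv.Perm (Fin r), ∀ i : Fin (r + r),
      (i.val ≤ r ∨ i.val % r ≤ 3 ∨ r ≤ i.val % r + 2) →
      M.IsBase (block (b ∘ σ) (b' ∘ σ') i) := by
  have hA := base_B₀ (b' := b') hb hB
  have hA' := base_B₁ (b := b) hb' hB'
  have hP := symExch_BP M (Sum.elim b b')
  have c0 : (B₀ r).card = r := by simp [B₀]
  have c1 : (B₁ r).card = r := by simp [B₁]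
  obtain ⟨X, hX, X', hX', V, hV, V', hV', dX, dV, h, h'⟩ := three_two (S := B₀ r) (T := B₁ r)
    (R := fun X V => GCh (BP M (Sum.elim b b')) (B₀ r) (B₁ r) 3 X V)
    (R' := fun X V => GCh (BP M (Sum.elim b b')) (B₀ r) (B₁ r) 2 X V) (by omega) (by omega)
    (fun V hV hc => by
      obtain ⟨X, hX, m, hm⟩ := totV hP hA hA' (disj_B r) V hV (by omega)
      obtain ⟨e1, e2⟩ := GCh.card _ _ _ hm
      have : m = 3 := by omega
      subst this
      exact ⟨X, hX, e1, hm⟩)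
    (fun X hX hc => by
      obtain ⟨V, hV, m, hm⟩ := totX hP hA hA' (disj_B r) X hX (by omega)
      obtain ⟨e1, e2⟩ := GCh.card _ _ _ hm
      have : m = 2 := by omega
      subst this
      exact ⟨V, hV, e2, hm⟩)
    (fun X V h => gch_sub 2 X V h)
  exact refine_near M b b' hb hB hB' (fun n => n ≤ 3 ∨ r ≤ n + 2)
    (of_two (k := 3) (l := 2) (by omega) hb hb' hB hB' hX hX' hV hV' dX dV h h')

end Pool.Agent.Gab14
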